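import Pool.Agent.helper93.PX.Spec

/-! # Row px:OB: left semicontinuity of the coarse orbit -/

set_option autoImplicit false

namespace Pool.Agent.PX

theorem OB_nonneg (b : ℕ → ℝ) (c : ℝ) (hc : 0 < c) (j n : ℕ) : 0 ≤ orb b c j n := by
  cases n with
  | zero => exact zero_le_one
  | succ n =>
    show 0 ≤ b (j + n) * orb b c j n - (⌊b (j + n) * orb b c j n / c⌋ : ℝ) * c
    have h := Int.floor_le (b (j + n) * orb b c j n / c)
    rw [le_div_iff₀ hc] at h
    linarith

theorem OB_aux (b : ℕ → ℝ) (hb : ∀ n, 1 < b n) (j : ℕ) (c₀ : ℝ) (hc₀ : 1 < c₀) (n : ℕ) :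
    ∃ δ A B : ℝ, 0 < δ ∧ δ < c₀ / 2 ∧ 0 ≤ B ∧
      ∀ c : ℝ, c₀ - δ < c → c ≤ c₀ → orb b c j n = A - B * c := by
  have hc0 : 0 < c₀ := by linarith
  induction n with
  | zero =>
    refine ⟨c₀ / 4, 1, 0, by linarith, by linarith, le_rfl, fun c _ _ => ?_⟩
    show (1 : ℝ) = 1 - 0 * c
    ring
  | succ n ih =>
    obtain ⟨δ, A, B, hδ, hδ2, hB, hAB⟩ := ih
    have hb0 : 0 < b (j + n) := by linarith [hb (j + n)]
    have h1 : orb b c₀ j n = A - B * c₀ := hAB c₀ (by linarith) le_rfl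
    have h2 : 0 ≤ A - B * c₀ := by
      rw [← h1]
      exact OB_nonneg b c₀ hc0 j n
    have hA : 0 ≤ A := by nlinarith
    obtain ⟨a, ha⟩ : ∃ a : ℤ, a = ⌊b (j + n) * (A - B * c₀) / c₀⌋ := ⟨_, rfl⟩
    have ha0 : 0 ≤ a := by
      rw [ha]
      exact Int.floor_nonneg.2 (div_nonneg (mul_nonneg hb0.le h2) hc0.le)
    have hlt : b (j + n) * (A - B * c₀) / c₀ < (a : ℝ) + 1 := by
      rw [ha]
      exact Int.lt_floor_add_one _
    have hle : (a : ℝ) ≤ b (j + n) * (A - B * c₀) / c₀ := by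
      rw [ha]
      exact Int.floor_le _
    have hcont : ContinuousAt (fun c : ℝ => b (j + n) * (A - B * c) / c) c₀ := by
      refine ContinuousAt.div ?_ continuousAt_id hc0.ne'
      fun_prop
    have hev : ∀ᶠ c in nhds c₀, b (j + n) * (A - B * c) / c < (a : ℝ) + 1 :=
      hcont.eventually_lt_const hlt
    obtain ⟨ε, hε, hball⟩ := Metric.eventually_nhds_iff.1 hev
    refine ⟨min δ ε, b (j + n) * A, b (j + n) * B + a, lt_min hδ hε,
      (min_le_left _ _).trans_lt hδ2, add_nonneg (mul_nonneg hb0.le hB) (by exact_mod_cast ha0),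
      fun c hc hcc => ?_⟩
    have hcδ : c₀ - δ < c := by linarith [min_le_left δ ε]
    have hcε : c₀ - ε < c := by linarith [min_le_right δ ε]
    have hcpos : 0 < c := by linarith
    show b (j + n) * orb b c j n - (⌊b (j + n) * orb b c j n / c⌋ : ℝ) * c = _
    rw [hAB c hcδ hcc]
    have h3 : b (j + n) * (A - B * c) / c < (a : ℝ) + 1 := by
      refine hball ?_
      rw [Real.dist_eq, abs_lt]
      exact ⟨by linarith, by linarith⟩
    have h4 : (a : ℝ) ≤ b (j + n) * (A - B * c) / c := by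
      refine hle.trans ?_
      have h5 : b (j + n) * (A - B * c₀) / c₀ = b (j + n) * (A / c₀ - B) := by
        field_simp
      have h6 : b (j + n) * (A - B * c) / c = b (j + n) * (A / c - B) := by
        field_simp
      rw [h5, h6]
      have h7 : A / c₀ ≤ A / c := div_le_div_of_nonneg_left hA hcpos hcc
      exact mul_le_mul_of_nonneg_left (by linarith) hb0.le
    have h5 : ⌊b (j + n) * (A - B * c) / c⌋ = a := by
      rw [Int.floor_eq_iff]
      exact ⟨h4, h3⟩
    rw [h5]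
    ring

theorem OB : OB_stmt := by
  intro b hb j c₀ hc₀ n
  obtain ⟨δ, A, B, hδ, _, hB, hAB⟩ := OB_aux b hb j c₀ hc₀ n
  refine ⟨δ, hδ, fun c hc hcc => ?_⟩
  rw [hAB c hc hcc, hAB c₀ (by linarith) le_rfl]
  have := mul_le_mul_of_nonneg_left hcc hB
  linarith

end Pool.Agent.PX
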